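import Mathlib

/-! An element of a finite-dimensional algebra which is not nilpotent modulo its powers satisfies a
polynomial equation with a simple zero at the origin. -/

namespace H36.WM

open Polynomial

/-- If `y β β = 0` implies `y β = 0` in a finite-dimensional `ℚ`-algebra, then `p(β) β = 0` for an
integral polynomial with `p(0) ≠ 0`. -/
theorem exists_poly {A : Type*} [Ring A] [Algebra ℚ A] [FiniteDimensional ℚ A] (β : A)
    (hβ : ∀ y : A, y * β * β = 0 → y * β = 0) :
    ∃ p : ℤ[X], p.coeff 0 ≠ 0 ∧ aeval β p * β = 0 := by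
  obtain ⟨p, hp0, hp⟩ : IsAlgebraic ℚ β := Algebra.IsAlgebraic.isAlgebraic β
  obtain ⟨q, hq, hdvd⟩ := Polynomial.exists_eq_pow_rootMultiplicity_mul_and_not_dvd p hp0 0
  set k := p.rootMultiplicity 0 with hk
  have hX : (X - C (0 : ℚ)) = X := by simp
  rw [hX] at hq hdvd
  have hq0 : q.coeff 0 ≠ 0 := fun h => hdvd (X_dvd_iff.mpr h)
  have h3 : aeval β q * β ^ k = 0 := by
    have : aeval β p = aeval β q * β ^ k := by
      rw [hq, mul_comm, map_mul, map_pow, aeval_X]
    rw [← this, hp]
  have down : ∀ (k : ℕ) (y : A), y * β ^ k = 0 → y * β = 0 := by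
    intro k
    induction k with
    | zero => intro y hy; rw [pow_zero, mul_one] at hy; rw [hy, zero_mul]
    | succ k ih =>
      intro y hy
      rcases Nat.eq_zero_or_pos k with h0 | h0
      · subst h0; simpa using hy
      · obtain ⟨m, rfl⟩ : ∃ m, k = m + 1 := ⟨k - 1, by omega⟩
        apply ih
        rw [pow_succ, ← mul_assoc]
        apply hβ
        rw [← hy, pow_succ, pow_succ]
        simp only [mul_assoc]
  have h4 := down k _ h3
  obtain ⟨b, hb, hbq⟩ := IsLocalization.integerNormalization_spec (nonZeroDivisors ℤ) q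
  have hb0 : b ≠ 0 := nonZeroDivisors.ne_zero hb
  set q' := IsLocalization.integerNormalization (nonZeroDivisors ℤ) q with hq'
  have h5 : q'.map (algebraMap ℤ ℚ) = C (b : ℚ) * q := by
    rw [hbq, zsmul_eq_mul]
    simp
  refine ⟨q', ?_, ?_⟩
  · intro h
    have h6 : (b : ℚ) * q.coeff 0 = 0 := by
      rw [← coeff_C_mul, ← h5, coeff_map, h, map_zero]
    rcases mul_eq_zero.mp h6 with h7 | h7
    · exact hb0 (by exact_mod_cast h7)
    · exact hq0 h7
  · have h6 : aeval β q' = aeval β (q'.map (algebraMap ℤ ℚ)) := (aeval_map_algebraMap ℚ β q').symm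
    rw [h6, h5, map_mul, aeval_C, mul_assoc, h4, mul_zero]

/-- If `aeval T p` kills `T x` for a polynomial with `p(0) ≠ 0`, then `T (T x) = 0` implies
`T x = 0`. -/
theorem ss_of_poly {F V : Type*} [Field F] [CharZero F] [AddCommGroup V] [Module F V]
    (T : Module.End F V) (p : ℤ[X]) (hp : p.coeff 0 ≠ 0) (x : V) (h : aeval T p (T x) = 0)
    (hx : T (T x) = 0) : T x = 0 := by
  have h1 : aeval T p (T x) = (p.coeff 0 : F) • T x := by
    conv_lhs => rw [← divX_mul_X_add p]
    rw [map_add, map_mul, aeval_X, aeval_C, LinearMap.add_apply, Module.End.mul_apply, hx,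
      map_zero, zero_add]
    rw [Module.algebraMap_end_apply]
    exact (Int.cast_smul_eq_zsmul F (p.coeff 0) (T x)).symm
  rw [h] at h1
  rcases smul_eq_zero.mp h1.symm with h2 | h2
  · exact absurd (Int.cast_eq_zero.mp h2) hp
  · exact h2

end H36.WM
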