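import Pool.Agent.H43.WM.Defs

/-! Positivity conditions on the strata of a semistable special fibre: the Rosati involution and
the Hodge index theorem. -/

namespace H36.WM

open H43.WM

variable {F V : Type*} [Field F] [AddCommGroup V] [Module F V]

/-- The lowest weight part of `⊕_a H^{δ-e}(Z^{(a+1)})`: the vectors with `g - h = e` killed by
`lam`. -/
def low (D : Datum F V) (e : ℕ) : Submodule F V where
  carrier := {x | D.g x - D.h x = (e : F) • x ∧ D.lam x = 0}
  add_mem' := by
    rintro x y ⟨h1, h2⟩ ⟨k1, k2⟩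
    refine ⟨?_, ?_⟩
    · rw [map_add, map_add, smul_add, ← h1, ← k1]; abel
    · rw [map_add, h2, k2, add_zero]
  zero_mem' := by simp
  smul_mem' := by
    rintro c x ⟨h1, h2⟩
    refine ⟨?_, ?_⟩
    · rw [map_smul, map_smul, ← smul_sub, h1, smul_comm]
    · rw [map_smul, h2, smul_zero]

/-- On `low D e` the map `res` belongs to a finite-dimensional `ℚ`-algebra `A` with an involution
such that `x* x = 0` only for `x = 0`, and `lam ∘ gys` is an integral multiple `κ a` of `res*` on
`H^{δ-e}(Z^{(a+2)})`. -/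
def Rosati (D : Datum F V) (e : ℕ) : Prop :=
  (∀ x ∈ low D e, D.lam (D.res x) = 0) ∧
  ∃ (A : Type) (_ : Ring A) (_ : StarRing A) (_ : Algebra ℚ A) (_ : FiniteDimensional ℚ A)
    (ρ : A →+* Module.End F (low D e)) (r : A) (κ : ℕ → ℤ),
    (∀ x : A, star x * x = 0 → x = 0) ∧
    (∀ x : low D e, (ρ r x : V) = D.res x) ∧
    ∀ (a : ℕ) (x : low D e), D.g x = ((a : F) + 1) • (x : V) →
      D.lam (D.gys x) = (κ a : F) • (ρ (star r) x : V)

/-- Poincaré duality on the strata: a bilinear form for which `l` and `lam` are self-adjoint and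
`res`, `gys` adjoint to each other. -/
structure Pairing (D : Datum F V) where
  B : V →ₗ[F] V →ₗ[F] F
  l : ∀ x y, B (D.l x) y = B x (D.l y)
  lam : ∀ x y, B (D.lam x) y = B x (D.lam y)
  res : ∀ x y, B (D.res x) y = B x (D.gys y)
  gys : ∀ x y, B (D.gys x) y = B x (D.res y)

/-- The part in `E` of the primitive cohomology `prim a b` is spanned, up to the kernel of `box`,
by finitely many classes `m i`, the operator `box` acts on them by a rational matrix, and their
intersection matrix `B (m i) (l^b m j)` is rational and anisotropic (for instance definite). -/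
def HodgeIndex (D : Datum F V) (E : Submodule F V) (a b : ℕ) : Prop :=
  ∃ (P : Pairing D) (n : ℕ) (m : Fin n → V) (t q : Matrix (Fin n) (Fin n) ℚ),
    (∀ i, m i ∈ D.prim a b) ∧
    D.prim a b ⊓ E ≤ Submodule.span F (Set.range m) ⊔ LinearMap.ker (D.box a) ∧
    (∀ i, D.box a (m i) = ∑ j, (t i j : F) • m j) ∧
    (∀ i j, P.B (m i) ((D.l ^ b) (m j)) = (q i j : F)) ∧
    ∀ x : Fin n → ℚ, x ≠ 0 → x ⬝ᵥ q.mulVec x ≠ 0

end H36.WM
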