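import Pool.Agent.H43.WM.Final
import Pool.Agent.H36.WM.Defs
import Pool.Agent.H36.WM.Alg

/-! The positivity conditions imply semisimplicity of the harmonic operator at `0`. -/

namespace H36.WM

open H43.WM Polynomial

variable {F V : Type*} [Field F] [CharZero F] [AddCommGroup V] [Module F V]

omit [CharZero F] in
theorem mem_low {D : Datum F V} {e : ℕ} {x : V} :
    x ∈ low D e ↔ D.g x - D.h x = (e : F) • x ∧ D.lam x = 0 := Iff.rfl

omit [CharZero F] in
theorem prim_low {D : Datum F V} {a b : ℕ} {x : V} (hx : x ∈ D.prim a b) :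
    x ∈ low D (a + b) := by
  obtain ⟨h1, h2, h3⟩ := hx
  refine mem_low.mpr ⟨?_, h3⟩
  rw [h1, h2]; push_cast; module

omit [CharZero F] in
/-- The operator `box` on `prim a b` when `lam ∘ res` vanishes. -/
theorem box_low {D : Datum F V} {a b : ℕ} {x : V} (hx : x ∈ D.prim a b)
    (h : D.lam (D.res x) = 0) :
    D.box a x = -(((a : F) + 1) • D.lam (D.gys (D.res x)) + (a : F) • D.res (D.lam (D.gys x))) := by
  obtain ⟨_, _, h3⟩ := hx
  have e : D.box a x = D.gys (D.lam (D.res x) - D.res (D.lam x))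
      - (D.lam (D.gys (D.res x)) - D.gys (D.lam (D.res x)))
      - (a : F) • (D.res (D.lam (D.gys x) - D.gys (D.lam x))
        + (D.lam (D.gys (D.res x)) - D.gys (D.lam (D.res x)))) := rfl
  rw [e, h, h3]
  simp only [map_zero, sub_zero, zero_sub]
  module

/-- Semisimplicity from the Rosati involution. -/
theorem ss_of_rosati [FiniteDimensional F V] {D : Datum F V} {a b : ℕ} (ha : 1 ≤ a)
    (hR : Rosati D (a + b)) (x : V) (hx : x ∈ D.prim a b) (h0 : D.box a (D.box a x) = 0) :
    D.box a x = 0 := by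
  obtain ⟨hlr, A, iR, iS, iA, iF, ρ, r, κ, hpos, hr, hg⟩ := hR
  obtain ⟨a', rfl⟩ : ∃ a', a = a' + 1 := ⟨a - 1, by omega⟩
  set β : A := ((a' + 1 + 1 : ℕ) * κ (a' + 1) : ℤ) • (star r * r)
    + ((a' + 1 : ℕ) * κ a' : ℤ) • (r * star r) with hβ
  have hβs : star β = β := by
    rw [hβ, star_add, star_zsmul, star_zsmul, star_mul, star_mul, star_star]
  have hβ2 : ∀ y : A, y * β * β = 0 → y * β = 0 := by
    intro y hy
    have h1 : star (star (y * β)) * star (y * β) = 0 := by
      rw [star_star, star_mul, hβs, ← mul_assoc, hy, zero_mul]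
    have h2 := hpos _ h1
    have h3 := congrArg star h2
    rwa [star_star, star_zero] at h3
  obtain ⟨p, hp0, hp⟩ := exists_poly β hβ2
  -- the operator
  have hT : ∀ (v : low D (a' + 1 + b)), (v : V) ∈ D.prim (a' + 1) b →
      (ρ β v : V) = - D.box (a' + 1) (v : V) := by
    intro v hv
    have hgv : D.g (v : V) = ((a' : F) + 1) • (v : V) := by
      have := hv.1
      rw [this]; push_cast; rfl
    have hgr : D.g (ρ r v : V) = (((a' + 1 : ℕ) : F) + 1) • (ρ r v : V) := by
      rw [hr, D.gres, hgv, map_smul]; push_cast; module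
    have e1 := hg a' v hgv
    have e2 := hg (a' + 1) (ρ r v) hgr
    rw [box_low hv (hlr _ v.2), neg_neg, ← hr v, e2, e1, map_smul, ← hr (ρ (star r) v)]
    have e3 : ρ β v = ((a' + 1 + 1 : ℕ) * κ (a' + 1) : ℤ) • (ρ (star r) (ρ r v))
        + ((a' + 1 : ℕ) * κ a' : ℤ) • (ρ r (ρ (star r) v)) := by
      rw [hβ, map_add, map_zsmul, map_zsmul, map_mul, map_mul]; rfl
    rw [e3]
    simp only [Submodule.coe_add, Submodule.coe_smul_of_tower]
    rw [← Int.cast_smul_eq_zsmul F, ← Int.cast_smul_eq_zsmul F, smul_smul, smul_smul]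
    push_cast
    module
  have hxl := prim_low hx
  set v : low D (a' + 1 + b) := ⟨x, hxl⟩ with hv
  have h1 : (ρ β v : V) = - D.box (a' + 1) x := hT v hx
  have hbx := box_prim hx
  have h2 : (ρ β v : V) ∈ D.prim (a' + 1) b := by rw [h1]; exact Submodule.neg_mem _ hbx
  have h3 : ρ β (ρ β v) = 0 := by
    apply Subtype.ext
    rw [hT _ h2, h1, map_neg, h0]; simp
  have h4 : aeval (ρ β) p (ρ β v) = 0 := by
    have e1 : aeval (ρ β) p = ρ (aeval β p) := by
      have := Polynomial.aeval_algHom_apply ρ.toIntAlgHom β p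
      exact this
    have e2 : ρ (aeval β p * β) v = 0 := by rw [hp, map_zero]; rfl
    rw [map_mul] at e2
    rw [e1]; exact e2
  have h5 := ss_of_poly (ρ β) p hp0 v h4 h3
  rw [h5] at h1
  have h6 : (0 : V) = - D.box (a' + 1) x := h1
  rw [← neg_eq_zero, ← h6]

/-! ### The Hodge index theorem -/

section Hodge

variable {D : Datum F V}

omit [CharZero F] in
theorem dp_res (P : Pairing D) (x y : V) :
    P.B (dp D.lam D.res x) y = - P.B x (dp D.lam D.gys y) := by
  rw [dp_apply, dp_apply, map_sub, LinearMap.sub_apply, P.lam, P.res, P.res, P.lam, map_sub]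
  ring

omit [CharZero F] in
theorem dp_gys (P : Pairing D) (x y : V) :
    P.B (dp D.lam D.gys x) y = - P.B x (dp D.lam D.res y) := by
  rw [dp_apply, dp_apply, map_sub, LinearMap.sub_apply, P.lam, P.gys, P.gys, P.lam, map_sub]
  ring

/-- `box` is self-adjoint on `H^*(Z^{(a+1)})`, `a ≥ 1`. -/
theorem box_adj [FiniteDimensional F V] (P : Pairing D) {a : ℕ} (ha : 1 ≤ a) {j : ℤ} (x y : V)
    (hy : y ∈ D.B0 (a : ℤ) j) :
    P.B (D.box a x) y = P.B x (D.box a y) := by
  have R := D.sys0.R1 (a := (a : ℤ)) (by exact_mod_cast ha) hy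
  have e : ∀ u, D.box a u = D.gys (dp D.lam D.res u) - dp D.lam D.gys (D.res u)
      - (a : F) • (D.res (dp D.lam D.gys u) + dp D.lam D.gys (D.res u)) := fun _ => rfl
  have R' : P.B x (dp D.lam D.res (D.gys y)) + P.B x (D.res (dp D.lam D.gys y))
      + P.B x (dp D.lam D.gys (D.res y)) + P.B x (D.gys (dp D.lam D.res y)) = 0 := by
    rw [← map_add, ← map_add, ← map_add, R, map_zero]
  rw [e, e]
  simp only [map_sub, map_add, map_smul, LinearMap.sub_apply, LinearMap.add_apply,
    LinearMap.smul_apply, smul_eq_mul, P.gys, P.res, dp_res P, dp_gys P]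
  linear_combination (a : F) * R'

/-- Semisimplicity from the Hodge index theorem. -/
theorem ss_of_hodge [FiniteDimensional F V] {E : Submodule F V} {a b : ℕ} (ha : 1 ≤ a)
    (hH : HodgeIndex D E a b) (x : V) (hx : x ∈ D.prim a b ⊓ E)
    (h0 : D.box a (D.box a x) = 0) : D.box a x = 0 := by
  obtain ⟨P, n, m, t, q, hm, hspan, hbox, hq, haniso⟩ := hH
  -- self-adjointness of t
  have hadj : t * q = q * t.transpose := by
    ext i j
    have hmj := (prim_iff.mp (hm j)).1
    have hly : (D.l ^ b) (m j) ∈ D.B0 (a : ℤ) ((b : ℤ)) := by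
      have := (D.sys0.fam (a : ℤ)).pow_mem b hmj (by ring : ((b : ℤ)) = -(b : ℤ) + 2 * b)
      exact this
    have hcomm : ∀ (k : ℕ) (j' : ℤ) (y : V), y ∈ D.B0 (a : ℤ) j' →
        D.box a ((D.l ^ k) y) = (D.l ^ k) (D.box a y) := by
      intro k
      induction k with
      | zero => intro _ y _; simp
      | succ k ih =>
        intro j' y hy
        have e0 : ∀ u, D.box a u = bx D.lam D.res D.gys ((a : ℤ) : F) u := by
          intro u; unfold Datum.box; push_cast; rfl
        rw [pow_succ, Module.End.mul_apply, ih _ _ (D.sys0.l_mem _ _ _ hy), e0 (D.l y),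
          D.sys0.bx_l hy, ← e0, Module.End.mul_apply]
    have h1 := box_adj P ha (m i) _ hly
    rw [hcomm b _ _ hmj, hbox i, hbox j] at h1
    simp only [map_sum, map_smul, LinearMap.sum_apply, LinearMap.smul_apply, smul_eq_mul, hq] at h1
    have h2 : ((∑ k, t i k * q k j : ℚ) : F) = ((∑ k, q i k * t j k : ℚ) : F) := by
      push_cast
      rw [h1]
      exact Finset.sum_congr rfl fun k _ => mul_comm _ _
    have h3 : (∑ k, t i k * q k j : ℚ) = ∑ k, q i k * t j k := by exact_mod_cast h2
    rw [Matrix.mul_apply, Matrix.mul_apply, h3]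
    rfl
  have hss : ∀ y : Matrix (Fin n) (Fin n) ℚ, y * t * t = 0 → y * t = 0 := by
    intro y hy
    have h1 : (y * t) * q * (y * t).transpose = 0 := by
      rw [Matrix.transpose_mul, Matrix.mul_assoc y t q, hadj]
      have e1 : y * (q * t.transpose) * (t.transpose * y.transpose)
          = y * ((q * t.transpose) * t.transpose) * y.transpose := by
        simp only [Matrix.mul_assoc]
      have e2 : q * t.transpose * t.transpose = t * t * q := by
        rw [← hadj, Matrix.mul_assoc, ← hadj, Matrix.mul_assoc]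
      rw [e1, e2, ← Matrix.mul_assoc, ← Matrix.mul_assoc, hy]
      simp
    ext i j
    by_contra hne
    have hrow : (y * t) i ≠ 0 := fun h => hne (by rw [congrFun h j]; rfl)
    apply haniso _ hrow
    have h2 := congrFun (congrFun h1 i) i
    rw [Matrix.mul_assoc, Matrix.mul_apply] at h2
    rw [dotProduct]
    exact h2
  obtain ⟨p, hp0, hp⟩ := exists_poly t hss
  -- transport to V
  set φ : (Fin n → F) →ₗ[F] V := Fintype.linearCombination F m with hφ
  have hφa : ∀ f, φ f = ∑ i, f i • m i := fun f => Fintype.linearCombination_apply F m f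
  have hT1 : ∀ f : Fin n → F, D.box a (φ f) = φ (Matrix.vecMul f (t.map (algebraMap ℚ F))) := by
    intro f
    rw [hφa, hφa, map_sum]
    simp only [map_smul, hbox, Finset.smul_sum, smul_smul]
    rw [Finset.sum_comm]
    refine Finset.sum_congr rfl fun j _ => ?_
    rw [← Finset.sum_smul]
    rfl
  have hTk : ∀ (k : ℕ) (f : Fin n → F),
      (D.box a ^ k) (φ f) = φ (Matrix.vecMul f ((t ^ k).map (algebraMap ℚ F))) := by
    intro k
    induction k with
    | zero =>
      intro f
      rw [pow_zero, pow_zero, Matrix.map_one _ (map_zero _) (map_one _), Matrix.vecMul_one]; rfl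
    | succ k ih =>
      intro f
      rw [pow_succ, Module.End.mul_apply, hT1, ih, Matrix.vecMul_vecMul, pow_succ' t,
        Matrix.map_mul]
  have hTp : ∀ (p : ℤ[X]) (f : Fin n → F),
      aeval (D.box a) p (φ f) = φ (Matrix.vecMul f ((aeval t p).map (algebraMap ℚ F))) := by
    intro p f
    induction p using Polynomial.induction_on' with
    | add p p' h1 h2 =>
      rw [map_add, map_add, LinearMap.add_apply, h1, h2,
        Matrix.map_add _ (fun a b => map_add _ a b), Matrix.vecMul_add, map_add]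
    | monomial k c =>
      rw [aeval_monomial, aeval_monomial, Module.End.mul_apply, hTk,
        Module.algebraMap_end_apply, ← Int.cast_smul_eq_zsmul F, ← map_smul, ← Matrix.vecMul_smul]
      congr 2
      have e1 : (algebraMap ℤ (Matrix (Fin n) (Fin n) ℚ)) c * t ^ k = c • t ^ k :=
        (Algebra.smul_def c (t ^ k)).symm
      rw [e1]
      ext i j
      rw [Matrix.smul_apply, Matrix.map_apply, Matrix.map_apply, Matrix.smul_apply, zsmul_eq_mul,
        map_mul, map_intCast, smul_eq_mul]
  obtain ⟨x1, hx1, x2, hx2, hx12⟩ := Submodule.mem_sup.mp (hspan hx)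
  rw [LinearMap.mem_ker] at hx2
  obtain ⟨f, hf⟩ : ∃ f, φ f = x1 := by
    rw [← Fintype.range_linearCombination F m] at hx1
    exact hx1
  have hbx : D.box a x = D.box a x1 := by rw [← hx12, map_add, hx2, add_zero]
  rw [hbx] at h0 ⊢
  refine ss_of_poly (D.box a) p hp0 x1 ?_ h0
  have e1 : aeval (D.box a) p (D.box a x1) = aeval (D.box a) (p * X) x1 := by
    rw [map_mul, aeval_X, Module.End.mul_apply]
  have e2 : aeval t (p * X) = 0 := by
    rw [map_mul, aeval_X]; exact hp
  rw [e1, ← hf, hTp, e2, Matrix.map_zero _ (map_zero _), Matrix.vecMul_zero, map_zero]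

end Hodge

end H36.WM
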